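import Pool.Agent.X136.ON.Defs

set_option autoImplicit false

/-!
# The configurations are given by the bits of the hexagons of the domain
-/

namespace Pool.Agent.X136.ON

open Finset

theorem mem_bd {e : Ed} {h : Hx} : e ∈ bd h ↔ s1 e = h ∨ s2 e = h := by
  obtain ⟨i, j, k⟩ := e
  obtain ⟨a, b⟩ := h
  unfold bd
  cases k <;>
  · simp only [mem_insert, mem_singleton, Prod.mk.injEq, s1, s2, and_true, and_false, reduceCtorEq,
      or_false, false_or]
    omega

/-- the hexagons of the domain -/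
def inn (E : Finset Ed) : Finset Hx := (E.image fun e => (e.1, e.2.1)).filter fun h => bd h ⊆ E

theorem mem_inn {E : Finset Ed} {h : Hx} : h ∈ inn E ↔ bd h ⊆ E := by
  unfold inn
  rw [mem_filter, mem_image]
  constructor
  · exact fun h => h.2
  · intro hE
    refine ⟨⟨(h.1, h.2, .A), hE ?_, rfl⟩, hE⟩
    rw [mem_bd]
    exact Or.inl rfl

/-- the bits, extended by `false` -/
def xt {E : Finset Ed} (x : inn E → Bool) (h : Hx) : Bool :=
  if hh : h ∈ inn E then x ⟨h, hh⟩ else false

theorem xt_mem {E : Finset Ed} {x : inn E → Bool} {h : Hx} (hh : xt x h = true) : h ∈ inn E := by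
  unfold xt at hh
  split_ifs at hh with h1
  exact h1

/-- membership as a bit -/
def ch (ω : Finset Ed) (e : Ed) : Bool := decide (e ∈ ω)

theorem ch_iff {ω : Finset Ed} {e : Ed} : ch ω e = true ↔ e ∈ ω := decide_eq_true_iff

theorem ch_false {ω : Finset Ed} {e : Ed} : ch ω e = false ↔ e ∉ ω := decide_eq_false_iff_not

theorem ch_ext {ω η : Finset Ed} (h : ∀ e, ch ω e = ch η e) : ω = η := by
  ext e
  rw [← ch_iff, ← ch_iff, h]

/-- the boundary of a set of hexagons -/
def Db {E : Finset Ed} (x : inn E → Bool) : Finset Ed := E.filter fun e => xt x (s1 e) ≠ xt x (s2 e)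

theorem ch_Db {E : Finset Ed} (x : inn E → Bool) (e : Ed) :
    ch (Db x) e = xor (xt x (s1 e)) (xt x (s2 e)) := by
  rw [Bool.eq_iff_iff, ch_iff, Bool.xor_iff_ne]
  unfold Db
  rw [mem_filter]
  constructor
  · exact fun h => h.2
  · intro h
    refine ⟨?_, h⟩
    cases h1 : xt x (s1 e)
    · cases h2 : xt x (s2 e)
      · rw [h1, h2] at h; exact absurd rfl h
      · exact mem_inn.1 (xt_mem h2) (mem_bd.2 (Or.inr rfl))
    · exact mem_inn.1 (xt_mem h1) (mem_bd.2 (Or.inl rfl))

theorem ch_symm (ω η : Finset Ed) (e : Ed) : ch (symmDiff ω η) e = xor (ch ω e) (ch η e) := by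
  rw [Bool.eq_iff_iff, ch_iff, mem_symmDiff]
  cases h1 : ch ω e <;> cases h2 : ch η e <;> simp_all [ch_iff, ch_false]

/-- the configuration with the bits `x` -/
def Cf {E : Finset Ed} (ω0 : Finset Ed) (x : inn E → Bool) : Finset Ed := symmDiff ω0 (Db x)

theorem ch_Cf {E : Finset Ed} (ω0 : Finset Ed) (x : inn E → Bool) (e : Ed) :
    ch (Cf ω0 x) e = xor (ch ω0 e) (xor (xt x (s1 e)) (xt x (s2 e))) := by
  unfold Cf
  rw [ch_symm, ch_Db]

/-! ### degrees -/

/-- the three edges at a vertex -/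
def ea : Vx → Ed
  | (i, j, false) => (i, j, .A)
  | (i, j, true) => (i, j + 1, .A)

/-- the second edge -/
def eb : Vx → Ed
  | (i, j, false) => (i, j, .B)
  | (i, j, true) => (i + 1, j, .B)

/-- the third edge -/
def ec (v : Vx) : Ed := (v.1, v.2.1, .C)

theorem inc_iff {v : Vx} {e : Ed} : Inc v e ↔ e = ea v ∨ e = eb v ∨ e = ec v := by
  obtain ⟨i, j, k⟩ := e
  obtain ⟨a, b, s⟩ := v
  unfold Inc up
  cases k <;> cases s <;>
  · simp only [dn, ea, eb, ec, Prod.mk.injEq, and_true, and_false, reduceCtorEq, or_false, false_or,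
      Bool.true_eq_false, Bool.false_eq_true]
    try omega

theorem ea_ne_eb (v : Vx) : ea v ≠ eb v := by
  obtain ⟨a, b, s⟩ := v
  cases s <;> simp [ea, eb]

theorem ea_ne_ec (v : Vx) : ea v ≠ ec v := by
  obtain ⟨a, b, s⟩ := v
  cases s <;> simp [ea, ec]

theorem eb_ne_ec (v : Vx) : eb v ≠ ec v := by
  obtain ⟨a, b, s⟩ := v
  cases s <;> simp [eb, ec]

theorem deg_eq (ω : Finset Ed) (v : Vx) :
    deg ω v = (ch ω (ea v)).toNat + (ch ω (eb v)).toNat + (ch ω (ec v)).toNat := by
  have h1 : (ω.filter fun e => Inc v e) = ({ea v, eb v, ec v} : Finset Ed).filter fun e => e ∈ ω := by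
    ext e
    rw [mem_filter, mem_filter, inc_iff]
    simp only [mem_insert, mem_singleton]
    tauto
  unfold deg
  rw [h1, card_filter, sum_insert, sum_insert, sum_singleton]
  · have h2 : ∀ e, (if e ∈ ω then 1 else 0) = (ch ω e).toNat := by
      intro e
      unfold ch
      by_cases h : e ∈ ω <;> simp [h]
    rw [h2, h2, h2, Nat.add_assoc]
  · rw [mem_singleton]; exact eb_ne_ec v
  · rw [mem_insert, mem_singleton, not_or]; exact ⟨ea_ne_eb v, ea_ne_ec v⟩

/-- the parity of the degree -/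
def par (ω : Finset Ed) (v : Vx) : Bool := xor (xor (ch ω (ea v)) (ch ω (eb v))) (ch ω (ec v))

theorem par_even {ω : Finset Ed} {v : Vx} : par ω v = false ↔ deg ω v = 0 ∨ deg ω v = 2 := by
  rw [deg_eq]
  unfold par
  cases ch ω (ea v) <;> cases ch ω (eb v) <;> cases ch ω (ec v) <;> simp

theorem par_odd {ω : Finset Ed} {v : Vx} (h : deg ω v = 1) : par ω v = true := by
  rw [deg_eq] at h
  unfold par
  revert h
  cases ch ω (ea v) <;> cases ch ω (eb v) <;> cases ch ω (ec v) <;> simp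

theorem deg_one {E ω : Finset Ed} {v : Vx} (hω : ω ⊆ E) (hv : Bdry E v) (h : par ω v = true) :
    deg ω v = 1 := by
  obtain ⟨e, he, hi⟩ := hv
  have h1 : ch ω e = false := ch_false.2 fun h => he (hω h)
  rw [deg_eq]
  unfold par at h
  rw [inc_iff] at hi
  revert h
  rcases hi with rfl | rfl | rfl
  · rw [h1]; cases ch ω (eb v) <;> cases ch ω (ec v) <;> simp
  · rw [h1]; cases ch ω (ea v) <;> cases ch ω (ec v) <;> simp
  · rw [h1]; cases ch ω (ea v) <;> cases ch ω (eb v) <;> simp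

theorem par_symm (ω η : Finset Ed) (v : Vx) : par (symmDiff ω η) v = xor (par ω v) (par η v) := by
  unfold par
  rw [ch_symm, ch_symm, ch_symm]
  cases ch ω (ea v) <;> cases ch ω (eb v) <;> cases ch ω (ec v) <;> cases ch η (ea v) <;>
    cases ch η (eb v) <;> cases ch η (ec v) <;> rfl

theorem par_Db {E : Finset Ed} (x : inn E → Bool) (v : Vx) : par (Db x) v = false := by
  unfold par
  rw [ch_Db, ch_Db, ch_Db]
  obtain ⟨i, j, s⟩ := v
  cases s
  · simp only [ea, eb, ec, s1, s2]
    cases xt x (i, j) <;> cases xt x (i + 1, j) <;> cases xt x (i, j + 1) <;> rfl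
  · simp only [ea, eb, ec, s1, s2]
    cases xt x (i + 1, j + 1) <;> cases xt x (i + 1, j) <;> cases xt x (i, j + 1) <;> rfl

theorem mem_Conf {E : Finset Ed} {a b : Vx} {ω : Finset Ed} : ω ∈ Conf E a b ↔
    ω ⊆ E ∧ deg ω a = 1 ∧ deg ω b = 1 ∧ ∀ v, v ≠ a → v ≠ b → deg ω v = 0 ∨ deg ω v = 2 := by
  classical
  simp only [Conf, mem_filter, mem_powerset]

theorem Cf_mem {E : Finset Ed} {a b : Vx} {ω0 : Finset Ed} (h0 : ω0 ∈ Conf E a b)
    (ha : Bdry E a) (hb : Bdry E b) (x : inn E → Bool) : Cf ω0 x ∈ Conf E a b := by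
  rw [mem_Conf] at h0 ⊢
  obtain ⟨h1, h2, h3, h4⟩ := h0
  have hp : ∀ v, par (Cf ω0 x) v = par ω0 v := by
    intro v
    unfold Cf
    rw [par_symm, par_Db, Bool.xor_false]
  have hs : Cf ω0 x ⊆ E := by
    intro e he
    unfold Cf at he
    rw [mem_symmDiff] at he
    rcases he with ⟨h, -⟩ | ⟨h, -⟩
    · exact h1 h
    · exact (mem_filter.1 h).1
  refine ⟨hs, deg_one hs ha ?_, deg_one hs hb ?_, ?_⟩
  · rw [hp]; exact par_odd h2
  · rw [hp]; exact par_odd h3
  · intro v hva hvb
    rw [← par_even, hp, par_even]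
    exact h4 v hva hvb

/-! ### every even set of edges is a boundary -/

/-- the parity of the number of the edges of `η` which the ray to the right crosses -/
def ray (η : Finset Ed) (h : Hx) : Bool :=
  decide ((η.filter fun e => e.2.2 = .A ∧ e.2.1 = h.2 ∧ h.1 ≤ e.1).card % 2 = 1)

theorem ray_A (η : Finset Ed) (i j : ℤ) :
    xor (ray η (i, j)) (ray η (i + 1, j)) = ch η (i, j, .A) := by
  set F1 := η.filter fun e => e.2.2 = .A ∧ e.2.1 = j ∧ i ≤ e.1 with hF1
  set F2 := η.filter fun e => e.2.2 = .A ∧ e.2.1 = j ∧ i + 1 ≤ e.1 with hF2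
  have e1 : ray η (i, j) = decide (F1.card % 2 = 1) := rfl
  have e2 : ray η (i + 1, j) = decide (F2.card % 2 = 1) := rfl
  rw [e1, e2]
  have hn : ((i, j, Dir.A) : Ed) ∉ F2 := by
    rw [hF2, mem_filter]
    rintro ⟨-, -, -, h⟩
    simp at h
  by_cases h : ((i, j, Dir.A) : Ed) ∈ η
  · have h1 : F1 = insert ((i, j, Dir.A) : Ed) F2 := by
      ext ⟨a, b, d⟩
      rw [mem_insert, hF1, hF2, mem_filter, mem_filter]
      simp only [Prod.mk.injEq]
      constructor
      · rintro ⟨h1, h2, h3, h4⟩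
        by_cases h5 : a = i
        · left; exact ⟨h5, h3, h2⟩
        · right; exact ⟨h1, h2, h3, by omega⟩
      · rintro (⟨rfl, rfl, rfl⟩ | ⟨h1, h2, h3, h4⟩)
        · exact ⟨h, rfl, rfl, le_rfl⟩
        · exact ⟨h1, h2, h3, by omega⟩
    rw [h1, card_insert_of_notMem hn]
    have h2 : ch η (i, j, .A) = true := ch_iff.2 h
    rw [h2]
    rcases Nat.mod_two_eq_zero_or_one F2.card with h3 | h3
    · have h4 : (F2.card + 1) % 2 = 1 := by omega
      rw [h3, h4]; rfl
    · have h4 : (F2.card + 1) % 2 = 0 := by omega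
      rw [h3, h4]; rfl
  · have h1 : F1 = F2 := by
      ext ⟨a, b, d⟩
      rw [hF1, hF2, mem_filter, mem_filter]
      simp only
      constructor
      · rintro ⟨h1, h2, h3, h4⟩
        refine ⟨h1, h2, h3, ?_⟩
        by_contra h5
        have h6 : a = i := by omega
        subst h6 h3 h2
        exact h h1
      · rintro ⟨h1, h2, h3, h4⟩
        exact ⟨h1, h2, h3, by omega⟩
    rw [h1, Bool.xor_self]
    exact (ch_false.2 h).symm

theorem exists_right (η : Finset Ed) : ∃ M : ℤ, ∀ e ∈ η, e.1 < M := by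
  obtain ⟨M, hM⟩ := (η.image fun e => e.1).bddAbove
  refine ⟨M + 1, fun e he => ?_⟩
  have h : e.1 ≤ M := hM (mem_coe.2 (mem_image_of_mem (fun e : Ed => e.1) he))
  omega

theorem ray_right {η : Finset Ed} {M : ℤ} (hM : ∀ e ∈ η, e.1 < M) {h : Hx} (hh : M ≤ h.1) :
    ray η h = false := by
  unfold ray
  rw [filter_false_of_mem]
  · rfl
  · rintro e he ⟨-, -, h2⟩
    have := hM e he
    omega

theorem ray_B {η : Finset Ed} (hη : ∀ v, par η v = false) (i j : ℤ) :
    xor (ray η (i, j)) (ray η (i, j + 1)) = ch η (i, j, .B) := by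
  obtain ⟨M, hM⟩ := exists_right η
  have hstep : ∀ i : ℤ, xor (xor (ray η (i, j)) (ray η (i, j + 1))) (ch η (i, j, .B)) =
      xor (xor (ray η (i + 1, j)) (ray η (i + 1, j + 1))) (ch η (i + 1, j, .B)) := by
    intro i
    have h1 := ray_A η i j
    have h2 := ray_A η i (j + 1)
    have h3 := hη (i, j, false)
    have h4 := hη (i, j, true)
    unfold par at h3 h4
    simp only [ea, eb, ec] at h3 h4
    revert h1 h2 h3 h4
    cases ray η (i, j) <;> cases ray η (i, j + 1) <;> cases ch η (i, j, .B) <;>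
      cases ray η (i + 1, j) <;> cases ray η (i + 1, j + 1) <;> cases ch η (i + 1, j, .B) <;>
      cases ch η (i, j, .A) <;> cases ch η (i, j + 1, .A) <;> cases ch η (i, j, .C) <;> simp
  have hbig : ∀ i : ℤ, M ≤ i →
      xor (xor (ray η (i, j)) (ray η (i, j + 1))) (ch η (i, j, .B)) = false := by
    intro i hi
    rw [ray_right hM (h := (i, j)) hi, ray_right hM (h := (i, j + 1)) hi]
    have : ch η (i, j, .B) = false := ch_false.2 fun h => by
      have := hM _ h
      simp only at this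
      omega
    rw [this]
    rfl
  have hall : ∀ n : ℕ, xor (xor (ray η (M - n, j)) (ray η (M - n, j + 1))) (ch η (M - n, j, .B)) =
      false := by
    intro n
    induction n with
    | zero => exact hbig _ (by simp)
    | succ n ih =>
      have h1 := hstep (M - (n + 1 : ℕ))
      rw [h1]
      have h2 : M - ((n + 1 : ℕ) : ℤ) + 1 = M - n := by push_cast; ring
      rw [h2]
      exact ih
  have h : xor (xor (ray η (i, j)) (ray η (i, j + 1))) (ch η (i, j, .B)) = false := by
    rcases le_or_gt M i with h1 | h1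
    · exact hbig i h1
    · have h2 := hall (M - i).toNat
      have h3 : M - ((M - i).toNat : ℤ) = i := by omega
      rw [h3] at h2
      exact h2
  revert h
  cases ray η (i, j) <;> cases ray η (i, j + 1) <;> cases ch η (i, j, .B) <;> simp

theorem ray_edge {η : Finset Ed} (hη : ∀ v, par η v = false) (e : Ed) :
    xor (ray η (s1 e)) (ray η (s2 e)) = ch η e := by
  obtain ⟨i, j, k⟩ := e
  cases k
  · exact ray_A η i j
  · exact ray_B hη i j
  · have h1 := ray_A η i j
    have h2 := ray_B hη i j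
    have h3 := hη (i, j, false)
    unfold par at h3
    simp only [ea, eb, ec, s1, s2] at h3 ⊢
    revert h1 h2 h3
    cases ray η (i, j) <;> cases ray η (i, j + 1) <;> cases ray η (i + 1, j) <;>
      cases ch η (i, j, .A) <;> cases ch η (i, j, .B) <;> cases ch η (i, j, .C) <;> simp

theorem ray_out {E η : Finset Ed} (hE : Simply E) (hηE : η ⊆ E) (hη : ∀ v, par η v = false) {h : Hx}
    (hh : ¬ bd h ⊆ E) : ray η h = false := by
  obtain ⟨M, hM⟩ := exists_right E
  have h1 : ¬ bd (M, (0:ℤ)) ⊆ E := by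
    intro hc
    have := hM _ (hc (mem_bd.2 (Or.inl (rfl : s1 (M, (0:ℤ), Dir.A) = (M, (0:ℤ))))))
    simp at this
  have h2 : ray η (M, (0:ℤ)) = false := ray_right (fun e he => hM e (hηE he)) le_rfl
  have h3 := hE h (M, (0:ℤ)) hh h1
  rw [← h2]
  clear h2 h1 hh
  generalize ((M, (0:ℤ)) : Hx) = h' at h3
  induction h3 with
  | refl => rfl
  | @tail f g _ hs ih =>
    rw [ih]
    obtain ⟨e, he, hfg⟩ := hs
    have h4 := ray_edge hη e
    rw [ch_false.2 fun h => he (hηE h)] at h4
    rcases hfg with ⟨rfl, rfl⟩ | ⟨rfl, rfl⟩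
    · revert h4; cases ray η (s1 e) <;> cases ray η (s2 e) <;> simp
    · revert h4; cases ray η (s1 e) <;> cases ray η (s2 e) <;> simp

theorem Cf_surj {E : Finset Ed} (hE : Simply E) {a b : Vx} {ω0 ω : Finset Ed}
    (h0 : ω0 ∈ Conf E a b) (h : ω ∈ Conf E a b) : ∃ x : inn E → Bool, Cf ω0 x = ω := by
  rw [mem_Conf] at h0 h
  have hp : ∀ v, par (symmDiff ω0 ω) v = false := by
    intro v
    rw [par_symm]
    by_cases hva : v = a
    · rw [hva, par_odd h.2.1, par_odd h0.2.1]; rfl
    · by_cases hvb : v = b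
      · rw [hvb, par_odd h.2.2.1, par_odd h0.2.2.1]; rfl
      · rw [par_even.2 (h.2.2.2 v hva hvb), par_even.2 (h0.2.2.2 v hva hvb)]; rfl
  set η := symmDiff ω0 ω with hη
  have hηE : η ⊆ E := by
    intro e he
    rw [hη, mem_symmDiff] at he
    rcases he with ⟨h1, -⟩ | ⟨h1, -⟩
    · exact h0.1 h1
    · exact h.1 h1
  refine ⟨fun i => ray η i.1, ?_⟩
  have hx : ∀ f, xt (fun i : inn E => ray η i.1) f = ray η f := by
    intro f
    unfold xt
    split_ifs with h1
    · rfl
    · exact (ray_out hE hηE hp fun h2 => h1 (mem_inn.2 h2)).symm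
  apply ch_ext
  intro e
  rw [ch_Cf, hx, hx, ray_edge hp, hη, ch_symm]
  cases ch ω0 e <;> cases ch ω e <;> rfl

theorem Cf_inj {E : Finset Ed} {ω0 : Finset Ed} : Function.Injective (Cf (E := E) ω0) := by
  intro x y hxy
  have h1 : ∀ e, xor (xor (xt x (s1 e)) (xt y (s1 e))) (xor (xt x (s2 e)) (xt y (s2 e))) = false := by
    intro e
    have h2 : ch (Cf ω0 x) e = ch (Cf ω0 y) e := by rw [hxy]
    rw [ch_Cf, ch_Cf] at h2
    revert h2
    cases ch ω0 e <;> cases xt x (s1 e) <;> cases xt x (s2 e) <;> cases xt y (s1 e) <;>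
      cases xt y (s2 e) <;> simp
  obtain ⟨M, hM⟩ := exists_right E
  have hbig : ∀ (z : inn E → Bool) (i j : ℤ), M ≤ i → xt z (i, j) = false := by
    intro z i j hi
    by_contra hc
    rw [Bool.not_eq_false] at hc
    have := hM _ (mem_inn.1 (xt_mem hc) (mem_bd.2 (Or.inl (rfl : s1 (i, j, Dir.A) = (i, j)))))
    simp only at this
    omega
  have hall : ∀ (j : ℤ) (n : ℕ), xt x (M - n, j) = xt y (M - n, j) := by
    intro j n
    induction n with
    | zero => rw [hbig x _ j (by simp), hbig y _ j (by simp)]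
    | succ n ih =>
      have h2 := h1 (M - (n + 1 : ℕ), j, .A)
      simp only [s1, s2] at h2
      have h3 : M - ((n + 1 : ℕ) : ℤ) + 1 = M - n := by push_cast; ring
      rw [h3, ih] at h2
      revert h2
      cases xt x (M - (n + 1 : ℕ), j) <;> cases xt y (M - (n + 1 : ℕ), j) <;>
        cases xt y (M - n, j) <;> simp
  have hfin : ∀ h : Hx, xt x h = xt y h := by
    rintro ⟨i, j⟩
    rcases le_or_gt M i with h2 | h2
    · rw [hbig x i j h2, hbig y i j h2]
    · have h3 := hall j (M - i).toNat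
      have h4 : M - ((M - i).toNat : ℤ) = i := by omega
      rw [h4] at h3
      exact h3
  funext i
  have h2 := hfin i.1
  unfold xt at h2
  rw [dif_pos i.2, dif_pos i.2] at h2
  exact h2

theorem sum_Conf {E : Finset Ed} (hE : Simply E) {a b : Vx} {ω0 : Finset Ed} (h0 : ω0 ∈ Conf E a b)
    (ha : Bdry E a) (hb : Bdry E b) (f : Finset Ed → ℝ) :
    ∑ ω ∈ Conf E a b, f ω = ∑ x : inn E → Bool, f (Cf ω0 x) := by
  symm
  refine sum_bij (fun x _ => Cf ω0 x) (fun x _ => Cf_mem h0 ha hb x) (fun x _ y _ h => Cf_inj h) ?_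
    (fun x _ => rfl)
  intro ω hω
  obtain ⟨x, hx⟩ := Cf_surj hE h0 hω
  exact ⟨x, mem_univ _, hx⟩

end Pool.Agent.X136.ON
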