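import Mathlib

set_option autoImplicit false

/-!
# The O(n) loop model on the honeycomb lattice

The hexagons are indexed by `ℤ × ℤ` (the triangular lattice: the hexagon `(i, j)` has the neighbours
`(i ± 1, j)`, `(i, j ± 1)`, `(i + 1, j - 1)`, `(i - 1, j + 1)`). The vertex `(i, j, false)` is the
common point of the hexagons `(i, j)`, `(i + 1, j)`, `(i, j + 1)`, and the vertex `(i, j, true)` the
common point of `(i + 1, j)`, `(i, j + 1)`, `(i + 1, j + 1)`. The three edges at the vertex
`(i, j, false)` are `(i, j, A)`, `(i, j, B)`, `(i, j, C)`.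
-/

namespace Pool.Agent.X136.ON

open Finset

/-- the three directions of the edges -/
inductive Dir
  | A | B | C
deriving DecidableEq

/-- hexagons -/
abbrev Hx : Type := ℤ × ℤ

/-- vertices of the honeycomb lattice -/
abbrev Vx : Type := ℤ × ℤ × Bool

/-- edges of the honeycomb lattice -/
abbrev Ed : Type := ℤ × ℤ × Dir

/-- the end of an edge of the first kind -/
def up (e : Ed) : Vx := (e.1, e.2.1, false)

/-- the end of an edge of the second kind -/
def dn : Ed → Vx
  | (i, j, .A) => (i, j - 1, true)
  | (i, j, .B) => (i - 1, j, true)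
  | (i, j, .C) => (i, j, true)

/-- one of the two hexagons of an edge -/
def s1 : Ed → Hx
  | (i, j, .A) => (i, j)
  | (i, j, .B) => (i, j)
  | (i, j, .C) => (i + 1, j)

/-- the other hexagon of an edge -/
def s2 : Ed → Hx
  | (i, j, .A) => (i + 1, j)
  | (i, j, .B) => (i, j + 1)
  | (i, j, .C) => (i, j + 1)

/-- the vertex `v` is an end of the edge `e` -/
def Inc (v : Vx) (e : Ed) : Prop := up e = v ∨ dn e = v

instance (v : Vx) (e : Ed) : Decidable (Inc v e) := inferInstanceAs (Decidable (_ ∨ _))

/-- the six edges of a hexagon -/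
def bd (h : Hx) : Finset Ed :=
  {(h.1, h.2, .A), (h.1 - 1, h.2, .A), (h.1, h.2, .B), (h.1, h.2 - 1, .B), (h.1 - 1, h.2, .C),
    (h.1, h.2 - 1, .C)}

/-- Simply connected domains. The domain is given by its finite set `E` of edges. Condition: any two
hexagons which have an edge outside of `E` are joined by a sequence of hexagons in which one
passes only through edges outside of `E`. -/
def Simply (E : Finset Ed) : Prop :=
  ∀ h h' : Hx, ¬ bd h ⊆ E → ¬ bd h' ⊆ E →
    Relation.ReflTransGen (fun f g => ∃ e, e ∉ E ∧ ((s1 e = f ∧ s2 e = g) ∨ (s1 e = g ∧ s2 e = f))) h h'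

/-- a boundary vertex: some edge at `v` is not in the domain -/
def Bdry (E : Finset Ed) (v : Vx) : Prop := ∃ e, e ∉ E ∧ Inc v e

/-- the number of the edges of `ω` at `v` -/
def deg (ω : Finset Ed) (v : Vx) : ℕ := (ω.filter fun e => Inc v e).card

/-- `v` and `w` are the ends of an edge of `ω` -/
def Nb (ω : Set Ed) (v w : Vx) : Prop :=
  ∃ e ∈ ω, (up e = v ∧ dn e = w) ∨ (up e = w ∧ dn e = v)

/-- `v` and `w` are joined by edges of `ω` -/
def Joined (ω : Set Ed) (v w : Vx) : Prop := Relation.ReflTransGen (Nb ω) v w

open Classical in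
/-- the configurations of the domain: every vertex has degree `0` or `2`, except `a` and `b`, which have
degree `1` -/
noncomputable def Conf (E : Finset Ed) (a b : Vx) : Finset (Finset Ed) :=
  E.powerset.filter fun ω => deg ω a = 1 ∧ deg ω b = 1 ∧
    ∀ v, v ≠ a → v ≠ b → deg ω v = 0 ∨ deg ω v = 2

open Classical in
/-- the edges of `ω` which are joined to a vertex of `V`: the union of the loops which visit `V`,
and of the path if `V` contains `a` or another vertex of the path. For `V = {a}` it is the path. -/
noncomputable def thru (ω : Finset Ed) (V : Finset Vx) : Finset Ed :=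
  ω.filter fun e => ∃ v ∈ V, Joined ↑ω v (up e)

/-- the number of the closed loops: the components of `ω` different from the one of `a` -/
noncomputable def loops (ω : Finset Ed) (a : Vx) : ℕ :=
  Set.ncard {C : Set Vx | ∃ v, (∃ e ∈ ω, Inc v e) ∧ ¬ Joined ↑ω a v ∧ C = {w | Joined ↑ω v w}}

/-- the weight `x ^ (number of edges) * n ^ (number of loops)` -/
noncomputable def weight (n x : ℝ) (a : Vx) (ω : Finset Ed) : ℝ := x ^ ω.card * n ^ loops ω a

open Classical in
/-- the probability of an event in the O(n) loop model -/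
noncomputable def prob (n x : ℝ) (E : Finset Ed) (a b : Vx) (A : Finset Ed → Prop) : ℝ :=
  (∑ ω ∈ (Conf E a b).filter A, weight n x a ω) / ∑ ω ∈ Conf E a b, weight n x a ω

/-- the mean number of edges of `thru ω V` for `n = x = 1` -/
noncomputable def meanLen (E : Finset Ed) (a b : Vx) (V : Finset Vx) : ℝ :=
  (∑ ω ∈ Conf E a b, ((thru ω V).card : ℝ)) / (Conf E a b).card

end Pool.Agent.X136.ON
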