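import Pool.Agent.X136.IT.Seq

set_option autoImplicit false

/-!
# Sequentially revealed bits given by a rule for the next bit
-/

namespace Pool.Agent.X136.ON

open Finset Pool.Agent.X136.IT

section

variable {ι : Type*} [Fintype ι] [DecidableEq ι]

/-- the revealed sets for a rule for the next bit -/
def rev (nx : Finset ι → (ι → Bool) → Option ι) : ℕ → (ι → Bool) → Finset ι
  | 0, _ => ∅
  | t + 1, x =>
    match nx (rev nx t x) x with
    | none => rev nx t x
    | some i => insert i (rev nx t x)

/-- conditions for a rule -/
structure Rule (nx : Finset ι → (ι → Bool) → Option ι) : Prop where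
  new : ∀ J x i, nx J x = some i → i ∉ J
  dep : ∀ J x x', (∀ i ∈ J, x i = x' i) → nx J x' = nx J x

variable {nx : Finset ι → (ι → Bool) → Option ι}

theorem rev_none {t : ℕ} {x : ι → Bool} (h : nx (rev nx t x) x = none) :
    rev nx (t + 1) x = rev nx t x := by
  show (match nx (rev nx t x) x with
    | none => rev nx t x
    | some i => insert i (rev nx t x)) = _
  rw [h]

theorem rev_some {t : ℕ} {x : ι → Bool} {i : ι} (h : nx (rev nx t x) x = some i) :
    rev nx (t + 1) x = insert i (rev nx t x) := by
  show (match nx (rev nx t x) x with
    | none => rev nx t x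
    | some i => insert i (rev nx t x)) = _
  rw [h]

theorem rev_sub (t : ℕ) (x : ι → Bool) : rev nx t x ⊆ rev nx (t + 1) x := by
  cases h : nx (rev nx t x) x with
  | none => rw [rev_none h]
  | some i => rw [rev_some h]; exact subset_insert _ _

theorem rev_same (h : Rule nx) : ∀ (t : ℕ) (x x' : ι → Bool), (∀ i ∈ rev nx t x, x i = x' i) →
    rev nx t x' = rev nx t x := by
  intro t
  induction t with
  | zero => intro x x' _; rfl
  | succ t ih =>
    intro x x' hx
    have h1 := ih x x' fun i hi => hx i (rev_sub t x hi)
    have h2 : nx (rev nx t x') x' = nx (rev nx t x) x := by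
      rw [h1]
      exact h.dep _ _ _ fun i hi => hx i (rev_sub t x hi)
    cases h3 : nx (rev nx t x) x with
    | none => rw [rev_none h3, rev_none (h2.trans h3), h1]
    | some i => rw [rev_some h3, rev_some (h2.trans h3), h1]

theorem seq_rev (h : Rule nx) : Seq (rev nx) := by
  refine ⟨fun _ => rfl, ?_, ?_⟩
  · intro t x
    cases h3 : nx (rev nx t x) x with
    | none => exact Or.inl (rev_none h3)
    | some i => exact Or.inr ⟨i, h.new _ _ _ h3, rev_some h3⟩
  · intro t x x' hx
    have h1 := rev_same h t x x' hx
    have h2 : nx (rev nx t x') x' = nx (rev nx t x) x := by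
      rw [h1]
      exact h.dep _ _ _ hx
    cases h3 : nx (rev nx t x) x with
    | none => rw [rev_none h3, rev_none (h2.trans h3), h1]
    | some i => rw [rev_some h3, rev_some (h2.trans h3), h1]

/-- the process has stopped after `card ι` steps -/
theorem rev_stop (h : Rule nx) (x : ι → Bool) : nx (rev nx (Fintype.card ι) x) x = none := by
  by_contra hcon
  have h1 : ∀ t ≤ Fintype.card ι, nx (rev nx t x) x ≠ none := by
    intro t ht hn
    apply hcon
    have h2 : ∀ s, nx (rev nx (t + s) x) x = none := by
      intro s
      induction s with
      | zero => exact hn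
      | succ s ih =>
        have := rev_none ih
        rw [← Nat.add_assoc, this]
        exact ih
    have := h2 (Fintype.card ι - t)
    rwa [Nat.add_sub_cancel' ht] at this
  have h2 : ∀ t ≤ Fintype.card ι + 1, (rev nx t x).card = t := by
    intro t
    induction t with
    | zero => intro _; rfl
    | succ t ih =>
      intro ht
      cases h3 : nx (rev nx t x) x with
      | none => exact absurd h3 (h1 t (by omega))
      | some i =>
        rw [rev_some h3, card_insert_of_notMem (h.new _ _ _ h3), ih (by omega)]
  have h3 := h2 _ le_rfl
  have h4 := card_le_univ (rev nx (Fintype.card ι + 1) x)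
  omega

end

end Pool.Agent.X136.ON
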