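import Pool.Agent.X136.ON.Aff
import Pool.Agent.X136.ON.Rev

set_option autoImplicit false

/-!
# The exploration of the path of the O(n) loop model
-/

namespace Pool.Agent.X136.ON

open Finset Pool.Agent.X136.IT

theorem Nb.symm {ω : Set Ed} {v w : Vx} (h : Nb ω v w) : Nb ω w v := by
  obtain ⟨e, he, h⟩ := h
  exact ⟨e, he, h.symm⟩

theorem Joined.symm {ω : Set Ed} {v w : Vx} (h : Joined ω v w) : Joined ω w v := by
  induction h with
  | refl => exact Relation.ReflTransGen.refl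
  | tail _ hs ih => exact Relation.ReflTransGen.head hs.symm ih

theorem Joined.mono {ω η : Set Ed} (h : ω ⊆ η) {v w : Vx} (hj : Joined ω v w) : Joined η v w := by
  induction hj with
  | refl => exact Relation.ReflTransGen.refl
  | tail _ hs ih =>
    obtain ⟨e, he, hh⟩ := hs
    exact Relation.ReflTransGen.tail ih ⟨e, h he, hh⟩

theorem joined_edge {ω : Set Ed} {e : Ed} (he : e ∈ ω) : Joined ω (up e) (dn e) :=
  Relation.ReflTransGen.single ⟨e, he, Or.inl ⟨rfl, rfl⟩⟩

/-- the hexagons at a vertex -/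
def hv : Vx → Finset Hx
  | (i, j, false) => {(i, j), (i + 1, j), (i, j + 1)}
  | (i, j, true) => {(i + 1, j), (i, j + 1), (i + 1, j + 1)}

theorem hv_card (v : Vx) : (hv v).card ≤ 3 := by
  obtain ⟨i, j, s⟩ := v
  cases s
  · exact card_le_three
  · exact card_le_three

theorem hv_of_inc {v : Vx} {e : Ed} (h : Inc v e) : s1 e ∈ hv v ∧ s2 e ∈ hv v := by
  rw [inc_iff] at h
  obtain ⟨i, j, s⟩ := v
  cases s <;> rcases h with rfl | rfl | rfl <;> simp [hv, ea, eb, ec, s1, s2]

variable {E : Finset Ed}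

/-- the edges of the configuration both of whose sides are known -/
def KO (ω0 : Finset Ed) (J : Finset (inn E)) (x : inn E → Bool) : Set Ed :=
  {e | e ∈ Cf ω0 x ∧ (∀ h : s1 e ∈ inn E, (⟨s1 e, h⟩ : inn E) ∈ J) ∧
    ∀ h : s2 e ∈ inn E, (⟨s2 e, h⟩ : inn E) ∈ J}

theorem KO_sub (ω0 : Finset Ed) (J : Finset (inn E)) (x : inn E → Bool) :
    KO ω0 J x ⊆ ↑(Cf ω0 x) := fun _ h => h.1

theorem xt_same {J : Finset (inn E)} {x x' : inn E → Bool} (h : ∀ i ∈ J, x i = x' i) {f : Hx}
    (hf : ∀ h : f ∈ inn E, (⟨f, h⟩ : inn E) ∈ J) : xt x f = xt x' f := by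
  unfold xt
  split_ifs with h1
  · exact h _ (hf h1)
  · rfl

theorem KO_same {ω0 : Finset Ed} {J : Finset (inn E)} {x x' : inn E → Bool}
    (h : ∀ i ∈ J, x i = x' i) : KO ω0 J x' = KO ω0 J x := by
  ext e
  unfold KO
  simp only [Set.mem_ofPred_eq]
  refine and_congr_left fun ⟨h1, h2⟩ => ?_
  rw [← ch_iff, ← ch_iff, ch_Cf, ch_Cf, xt_same h h1, xt_same h h2]

/-- the vertices joined to `V` -/
def JV (ω : Set Ed) (V : Finset Vx) (v : Vx) : Prop := ∃ u ∈ V, Joined ω u v

theorem JV.mono {ω η : Set Ed} (h : ω ⊆ η) {V : Finset Vx} {v : Vx} (hj : JV ω V v) : JV η V v := by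
  obtain ⟨u, hu, hj⟩ := hj
  exact ⟨u, hu, hj.mono h⟩

/-- the condition for the next hexagon -/
def Cand (ω0 : Finset Ed) (V : Finset Vx) (J : Finset (inn E)) (x : inn E → Bool) (i : inn E) :
    Prop :=
  i ∉ J ∧ ∃ v, JV (KO ω0 J x) V v ∧ i.1 ∈ hv v

open Classical in
/-- the next hexagon -/
noncomputable def nx (ω0 : Finset Ed) (V : Finset Vx) (J : Finset (inn E)) (x : inn E → Bool) :
    Option (inn E) :=
  if h : ∃ i, Cand ω0 V J x i then some h.choose else none

theorem nx_rule (ω0 : Finset Ed) (V : Finset Vx) : Rule (nx (E := E) ω0 V) := by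
  classical
  constructor
  · intro J x i h
    unfold nx at h
    split_ifs at h with h1
    rw [Option.some.injEq] at h
    rw [← h]
    exact h1.choose_spec.1
  · intro J x x' h
    have h1 : Cand ω0 V J x' = Cand ω0 V J x := by
      funext i
      unfold Cand
      rw [KO_same h]
    unfold nx
    simp only [h1]

theorem nx_none {ω0 : Finset Ed} {V : Finset Vx} {J : Finset (inn E)} {x : inn E → Bool}
    (h : nx ω0 V J x = none) {v : Vx} (hv' : JV (KO ω0 J x) V v) {i : inn E} (hi : i.1 ∈ hv v) :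
    i ∈ J := by
  classical
  by_contra hc
  unfold nx at h
  rw [dif_pos ⟨i, hc, v, hv', hi⟩] at h
  exact absurd h (by simp)

theorem nx_none_edge {ω0 : Finset Ed} {V : Finset Vx} {J : Finset (inn E)} {x : inn E → Bool}
    (h : nx ω0 V J x = none) {v : Vx} (hv' : JV (KO ω0 J x) V v) {e : Ed}
    (he : e ∈ Cf ω0 x) (hi : Inc v e) : e ∈ KO ω0 J x := by
  obtain ⟨h1, h2⟩ := hv_of_inc hi
  exact ⟨he, fun _ => nx_none h hv' h1, fun _ => nx_none h hv' h2⟩

theorem joined_KO {ω0 : Finset Ed} {V : Finset Vx} {J : Finset (inn E)} {x : inn E → Bool}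
    (h : nx ω0 V J x = none) (v : Vx) : JV ↑(Cf ω0 x) V v ↔ JV (KO ω0 J x) V v := by
  constructor
  · rintro ⟨u, hu, hj⟩
    refine ⟨u, hu, ?_⟩
    induction hj with
    | refl => exact Relation.ReflTransGen.refl
    | @tail z w _ hs ih =>
      obtain ⟨e, he, hh⟩ := hs
      refine ih.tail ⟨e, ?_, hh⟩
      refine nx_none_edge h ⟨u, hu, ih⟩ he ?_
      rcases hh with ⟨h1, -⟩ | ⟨-, h1⟩
      · exact Or.inl h1
      · exact Or.inr h1
  · exact JV.mono (KO_sub _ _ _)

theorem mem_thru {ω : Finset Ed} {V : Finset Vx} {e : Ed} :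
    e ∈ thru ω V ↔ e ∈ ω ∧ JV ↑ω V (up e) := by
  classical
  simp only [thru, mem_filter, JV]

theorem thru_KO {ω0 : Finset Ed} {V : Finset Vx} {J : Finset (inn E)} {x : inn E → Bool}
    (h : nx ω0 V J x = none) (e : Ed) :
    e ∈ thru (Cf ω0 x) V ↔ e ∈ KO ω0 J x ∧ JV (KO ω0 J x) V (up e) := by
  rw [mem_thru, joined_KO h]
  constructor
  · rintro ⟨h1, h2⟩
    exact ⟨nx_none_edge h h2 h1 (Or.inl rfl), h2⟩
  · rintro ⟨h1, h2⟩
    exact ⟨h1.1, h2⟩

/-- the bits revealed by the exploration -/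
noncomputable def JJ (ω0 : Finset Ed) (V : Finset Vx) (x : inn E → Bool) : Finset (inn E) :=
  rev (nx ω0 V) (Fintype.card (inn E)) x

theorem thru_same {ω0 : Finset Ed} {V : Finset Vx} {x x' : inn E → Bool}
    (h : ∀ i ∈ JJ ω0 V x, x i = x' i) : thru (Cf ω0 x') V = thru (Cf ω0 x) V := by
  have h2 : nx ω0 V (JJ ω0 V x) x = none := rev_stop (nx_rule ω0 V) x
  have h3 : nx ω0 V (JJ ω0 V x) x' = none := by
    rw [(nx_rule ω0 V).dep _ _ _ h]
    exact h2
  ext e
  rw [thru_KO h2, thru_KO h3, KO_same h]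

theorem rev_adj {ω0 : Finset Ed} {V : Finset Vx} (x : inn E → Bool) (t : ℕ) :
    ∀ i ∈ rev (nx ω0 V) t x, ∃ v, JV ↑(Cf ω0 x) V v ∧ i.1 ∈ hv v := by
  classical
  induction t with
  | zero =>
    intro i hi
    exact absurd hi (notMem_empty i)
  | succ t ih =>
    intro i hi
    cases h : nx ω0 V (rev (nx ω0 V) t x) x with
    | none => rw [rev_none h] at hi; exact ih i hi
    | some k =>
      rw [rev_some h, mem_insert] at hi
      rcases hi with rfl | hi
      · unfold nx at h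
        split_ifs at h with h1
        rw [Option.some.injEq] at h
        obtain ⟨-, v, h2, h3⟩ := h1.choose_spec
        rw [h] at h3
        exact ⟨v, h2.mono (KO_sub _ _ _), h3⟩
      · exact ih i hi

/-- the number of the revealed bits -/
theorem JJ_card (ω0 : Finset Ed) (V : Finset Vx) (x : inn E → Bool) :
    (JJ ω0 V x).card ≤ 6 * (V.card + (thru (Cf ω0 x) V).card) := by
  classical
  set ω := Cf ω0 x with hω
  set W : Finset Vx := V ∪ ((thru ω V).image up ∪ (thru ω V).image dn) with hW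
  have h1 : ∀ v, JV ↑ω V v → v ∈ W := by
    rintro v ⟨u, hu, hj⟩
    rcases Relation.ReflTransGen.cases_tail hj with h2 | ⟨w, hw, e, he, hh⟩
    · rw [hW, mem_union]; left; rw [h2]; exact hu
    · rw [hW, mem_union, mem_union, mem_image, mem_image]
      right
      rcases hh with ⟨h3, h4⟩ | ⟨h3, h4⟩
      · right
        refine ⟨e, mem_thru.2 ⟨he, u, hu, ?_⟩, h4⟩
        rw [h3]; exact hw
      · left
        refine ⟨e, mem_thru.2 ⟨he, u, hu, ?_⟩, h3⟩
        rw [h3]; exact hj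
  have h2 : (JJ ω0 V x).map ⟨Subtype.val, Subtype.val_injective⟩ ⊆ W.biUnion hv := by
    intro f hf
    rw [mem_map] at hf
    obtain ⟨i, hi, rfl⟩ := hf
    obtain ⟨v, h3, h4⟩ := rev_adj x _ i hi
    rw [mem_biUnion]
    exact ⟨v, h1 v h3, h4⟩
  have h3 := card_le_card h2
  rw [card_map] at h3
  have h4 : (W.biUnion hv).card ≤ W.card * 3 := card_biUnion_le_card_mul _ _ _ fun v _ => hv_card v
  have h5 : ((thru ω V).image up ∪ (thru ω V).image dn).card ≤ (thru ω V).card + (thru ω V).card :=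
    (card_union_le _ _).trans (add_le_add card_image_le card_image_le)
  have h6 : W.card ≤ V.card + ((thru ω V).image up ∪ (thru ω V).image dn).card := card_union_le _ _
  omega

end Pool.Agent.X136.ON
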