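import Pool.Agent.X136.ON.Expl

set_option autoImplicit false

/-!
# The path of the O(n) loop model for `(n, x)` close to `(1, 1)`
-/

namespace Pool.Agent.X136.ON

open Finset Pool.Agent.X136.IT Pool.Agent.X136.DP

/-- the six vertices of a hexagon -/
def vh (h : Hx) : Finset Vx :=
  {(h.1, h.2, false), (h.1 - 1, h.2, false), (h.1, h.2 - 1, false), (h.1, h.2 - 1, true),
    (h.1 - 1, h.2, true), (h.1 - 1, h.2 - 1, true)}

theorem vh_card (h : Hx) : (vh h).card ≤ 6 := card_le_six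

theorem bd_card (h : Hx) : (bd h).card ≤ 6 := card_le_six

theorem mem_vh {v : Vx} {e : Ed} {h : Hx} (he : e ∈ bd h) (hi : Inc v e) : v ∈ vh h := by
  rw [mem_bd] at he
  obtain ⟨i, j, k⟩ := e
  obtain ⟨p, q⟩ := h
  obtain ⟨u, w, s⟩ := v
  unfold Inc at hi
  unfold vh
  cases k <;> cases s <;>
  · simp only [s1, s2, up, dn, Prod.mk.injEq, mem_insert, mem_singleton, and_true, and_false,
      or_false, false_or, Bool.true_eq_false, Bool.false_eq_true] at he hi ⊢
    try omega

/-- the closed loops -/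
def Lp (ω : Finset Ed) (a : Vx) : Set (Set Vx) :=
  {C : Set Vx | ∃ v, (∃ e ∈ ω, Inc v e) ∧ ¬ Joined ↑ω a v ∧ C = {w | Joined ↑ω v w}}

theorem Lp_fin (ω : Finset Ed) (a : Vx) : (Lp ω a).Finite := by
  classical
  refine Set.Finite.subset (Finset.finite_toSet ((ω.image up ∪ ω.image dn).image
    fun v => {w | Joined ↑ω v w})) ?_
  rintro C ⟨v, ⟨e, he, hi⟩, -, rfl⟩
  rw [mem_coe, mem_image]
  refine ⟨v, ?_, rfl⟩
  rw [mem_union, mem_image, mem_image]
  rcases hi with rfl | rfl
  · exact Or.inl ⟨e, he, rfl⟩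
  · exact Or.inr ⟨e, he, rfl⟩

theorem loops_le {ω ω' : Finset Ed} {h : Hx} (hs : ∀ e, e ∉ bd h → (e ∈ ω' ↔ e ∈ ω)) (a : Vx) :
    loops ω' a ≤ loops ω a + 6 := by
  classical
  have key : Lp ω' a ⊆ Lp ω a ∪ ↑((vh h).image fun u => {w | Joined ↑ω' u w}) := by
    rintro C ⟨v, ⟨e, he, hi⟩, hv, rfl⟩
    by_cases hC : ∃ u ∈ vh h, Joined ↑ω' v u
    · right
      obtain ⟨u, hu, hj⟩ := hC
      rw [mem_coe, mem_image]
      refine ⟨u, hu, ?_⟩
      ext w
      exact ⟨fun h => hj.trans h, fun h => hj.symm.trans h⟩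
    · left
      push Not at hC
      have hn : ∀ w, Joined ↑ω' v w → ∀ e, Inc w e → e ∉ bd h := by
        intro w hw e he hb
        exact hC w (mem_vh hb he) hw
      have h1 : ∀ w, Joined ↑ω v w → Joined ↑ω' v w := by
        intro w hw
        induction hw with
        | refl => exact Relation.ReflTransGen.refl
        | @tail u w _ hst ih =>
          obtain ⟨e, he, hh⟩ := hst
          refine Relation.ReflTransGen.tail ih ⟨e, ?_, hh⟩
          rw [mem_coe] at he ⊢
          refine (hs e (hn u ih e ?_)).2 he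
          rcases hh with ⟨h1, -⟩ | ⟨-, h1⟩
          · exact Or.inl h1
          · exact Or.inr h1
      have h2 : ∀ w, Joined ↑ω' v w → Joined ↑ω v w := by
        intro w hw
        induction hw with
        | refl => exact Relation.ReflTransGen.refl
        | @tail u w hu hst ih =>
          obtain ⟨e, he, hh⟩ := hst
          refine Relation.ReflTransGen.tail ih ⟨e, ?_, hh⟩
          rw [mem_coe] at he ⊢
          refine (hs e (hn u hu e ?_)).1 he
          rcases hh with ⟨h1, -⟩ | ⟨-, h1⟩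
          · exact Or.inl h1
          · exact Or.inr h1
      refine ⟨v, ⟨e, (hs e (hn v Relation.ReflTransGen.refl e hi)).1 he, hi⟩, ?_, ?_⟩
      · intro hc
        exact hv (h1 _ hc.symm).symm
      · ext w
        exact ⟨h2 w, h1 w⟩
  have h1 : (Lp ω' a).ncard ≤ (Lp ω a ∪ ↑((vh h).image fun u => {w | Joined ↑ω' u w})).ncard :=
    Set.ncard_le_ncard key ((Lp_fin ω a).union (Finset.finite_toSet _))
  have h2 := Set.ncard_union_le (Lp ω a) ↑((vh h).image fun u => {w | Joined ↑ω' u w})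
  rw [Set.ncard_coe_finset] at h2
  have h3 : ((vh h).image fun u => {w | Joined ↑ω' u w}).card ≤ 6 := card_image_le.trans (vh_card h)
  have h4 : loops ω' a = (Lp ω' a).ncard := rfl
  have h5 : loops ω a = (Lp ω a).ncard := rfl
  omega

theorem card_le_flip {ω ω' : Finset Ed} {h : Hx} (hs : ∀ e, e ∉ bd h → (e ∈ ω' ↔ e ∈ ω)) :
    ω'.card ≤ ω.card + 6 := by
  classical
  have h1 : ω' ⊆ ω ∪ bd h := by
    intro e he
    rw [mem_union]
    by_cases hb : e ∈ bd h
    · exact Or.inr hb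
    · exact Or.inl ((hs e hb).1 he)
  have h2 := (card_le_card h1).trans (card_union_le _ _)
  have h3 := bd_card h
  omega

theorem pow_flip {y : ℝ} (hy : 0 < y) {k k' : ℕ} (h1 : k' ≤ k + 6) (h2 : k ≤ k' + 6) :
    y ^ k' ≤ Real.exp (6 * |Real.log y|) * y ^ k := by
  have e : ∀ m : ℕ, y ^ m = Real.exp (m * Real.log y) := by
    intro m
    rw [mul_comm, ← Real.rpow_def_of_pos hy, Real.rpow_natCast]
  rw [e, e, ← Real.exp_add]
  refine Real.exp_le_exp.2 ?_
  have h3 : |((k' : ℝ) - k)| ≤ 6 := by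
    rw [abs_le]
    have h1' : (k' : ℝ) ≤ k + 6 := by exact_mod_cast h1
    have h2' : (k : ℝ) ≤ k' + 6 := by exact_mod_cast h2
    constructor <;> linarith
  have h4 : ((k' : ℝ) - k) * Real.log y ≤ 6 * |Real.log y| := by
    refine (le_abs_self _).trans ?_
    rw [abs_mul]
    exact mul_le_mul_of_nonneg_right h3 (abs_nonneg _)
  linarith

theorem weight_flip {n x : ℝ} (hn : 0 < n) (hx : 0 < x) {ω ω' : Finset Ed} {h : Hx}
    (hs : ∀ e, e ∉ bd h → (e ∈ ω' ↔ e ∈ ω)) (a : Vx) :
    weight n x a ω' ≤ Real.exp (6 * (|Real.log n| + |Real.log x|)) * weight n x a ω := by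
  have hs' : ∀ e, e ∉ bd h → (e ∈ ω ↔ e ∈ ω') := fun e he => (hs e he).symm
  have h1 := pow_flip hx (card_le_flip hs) (card_le_flip hs')
  have h2 := pow_flip hn (loops_le hs a) (loops_le hs' a)
  unfold weight
  have e : Real.exp (6 * (|Real.log n| + |Real.log x|)) =
      Real.exp (6 * |Real.log x|) * Real.exp (6 * |Real.log n|) := by
    rw [← Real.exp_add]; ring_nf
  rw [e]
  calc x ^ ω'.card * n ^ loops ω' a ≤
      (Real.exp (6 * |Real.log x|) * x ^ ω.card) * (Real.exp (6 * |Real.log n|) * n ^ loops ω a) :=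
        mul_le_mul h1 h2 (by positivity) (by positivity)
    _ = _ := by ring

variable {E : Finset Ed}

theorem Cf_flip {ω0 : Finset Ed} (x : inn E → Bool) (i : inn E) (b : Bool) (e : Ed)
    (he : e ∉ bd i.1) : e ∈ Cf ω0 (Function.update x i b) ↔ e ∈ Cf ω0 x := by
  rw [mem_bd, not_or] at he
  have h1 : ∀ f : Hx, f ≠ i.1 → xt (Function.update x i b) f = xt x f := by
    intro f hf
    unfold xt
    split_ifs with h2
    · rw [Function.update_of_ne]
      intro hc
      exact hf (congrArg Subtype.val hc)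
    · rfl
  rw [← ch_iff, ← ch_iff, ch_Cf, ch_Cf, h1 _ he.1, h1 _ he.2]

theorem rt_weight {n x : ℝ} (hn : 0 < n) (hx : 0 < x) (ω0 : Finset Ed) (a : Vx) :
    Rt (fun y : inn E → Bool => weight n x a (Cf ω0 y))
      (Real.exp (6 * (|Real.log n| + |Real.log x|))) := by
  refine ⟨Real.one_le_exp (by positivity), fun y => ?_, fun y i => ?_⟩
  · unfold weight; positivity
  · exact weight_flip hn hx (fun e he => Cf_flip y i _ e he) a

theorem neg_log_cosh (s : ℝ) :
    -Real.log (4 * Real.exp s / (1 + Real.exp s) ^ 2) / 2 ≤ s ^ 2 / 8 := by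
  have h1 : 4 * Real.exp s / (1 + Real.exp s) ^ 2 = ((Real.cosh (s / 2)) ^ 2)⁻¹ := by
    have h2 : Real.exp s = Real.exp (s / 2) * Real.exp (s / 2) := by
      rw [← Real.exp_add]; ring_nf
    have h3 : Real.exp (-(s / 2)) = (Real.exp (s / 2))⁻¹ := Real.exp_neg _
    have h4 : 0 < Real.exp (s / 2) := Real.exp_pos _
    rw [Real.cosh_eq, h2, h3]
    field_simp
    ring
  have h5 := Real.cosh_le_exp_half_sq (s / 2)
  have h6 : 0 < Real.cosh (s / 2) := Real.cosh_pos _
  have h7 : Real.log (Real.cosh (s / 2)) ≤ (s / 2) ^ 2 / 2 := by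
    rw [← Real.log_exp ((s / 2) ^ 2 / 2)]
    exact Real.log_le_log h6 h5
  rw [h1, Real.log_inv, Real.log_pow]
  push_cast
  nlinarith

open Classical in
theorem prob_sum (hE : Simply E) {a b : Vx} {ω0 : Finset Ed} (h0 : ω0 ∈ Conf E a b)
    (ha : Bdry E a) (hb : Bdry E b) (n x : ℝ) (A : Finset Ed → Prop) :
    prob n x E a b A = (∑ y : inn E → Bool, (if A (Cf ω0 y) then (1:ℝ) else 0) *
      weight n x a (Cf ω0 y)) / ∑ y : inn E → Bool, weight n x a (Cf ω0 y) := by
  unfold prob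
  rw [sum_filter, sum_Conf hE h0 ha hb, sum_Conf hE h0 ha hb]
  congr 1
  refine sum_congr rfl fun x _ => ?_
  split_ifs <;> simp

theorem weight_one (a : Vx) (ω : Finset Ed) : weight 1 1 a ω = 1 := by
  unfold weight
  rw [one_pow, one_pow, one_mul]

theorem meanLen_eq (hE : Simply E) {a b : Vx} {ω0 : Finset Ed} (h0 : ω0 ∈ Conf E a b)
    (ha : Bdry E a) (hb : Bdry E b) (V : Finset Vx) :
    meanLen E a b V = av (fun y : inn E → Bool => ((thru (Cf ω0 y) V).card : ℝ)) := by
  unfold meanLen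
  rw [sum_Conf hE h0 ha hb]
  have h1 : ((Conf E a b).card : ℝ) = 2 ^ Fintype.card (inn E) := by
    have h2 := sum_Conf hE h0 ha hb (fun _ => (1:ℝ))
    rw [sum_const, sum_const, card_univ, Fintype.card_fun, Fintype.card_bool] at h2
    simpa using h2
  rw [h1]
  rfl

theorem final_num {l R M : ℝ} (hl : 0 ≤ l) (hR : 0 ≤ R) (hM : 0 ≤ M) (hRM : R ≤ 6 * M) :
    2 * Real.sqrt (-Real.log (4 * Real.exp (6 * l) / (1 + Real.exp (6 * l)) ^ 2) / 2 * R) ≤
      11 * l * Real.sqrt M := by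
  have h1 := neg_log_cosh (6 * l)
  generalize -Real.log (4 * Real.exp (6 * l) / (1 + Real.exp (6 * l)) ^ 2) / 2 = K at h1 ⊢
  have h3 : K * R ≤ (11 / 2 * l) ^ 2 * M := by
    refine (mul_le_mul h1 hRM hR (by positivity)).trans ?_
    have h5 : (6 * l) ^ 2 / 8 * (6 * M) = 27 * (l ^ 2 * M) := by ring
    have h6 : (11 / 2 * l) ^ 2 * M = 121 / 4 * (l ^ 2 * M) := by ring
    rw [h5, h6]
    have h4 : 0 ≤ l ^ 2 * M := mul_nonneg (sq_nonneg _) hM
    linarith
  refine (mul_le_mul_of_nonneg_left (Real.sqrt_le_sqrt h3) (by norm_num)).trans (le_of_eq ?_)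
  rw [Real.sqrt_mul (sq_nonneg _), Real.sqrt_sq (by positivity)]
  ring

/-- **The O(n) loop model for `(n, x)` close to `(1, 1)`.** -/
theorem path_law (E : Finset Ed) (hE : Simply E) (a b : Vx) (ha : Bdry E a) (hb : Bdry E b)
    (n x : ℝ) (hn : 0 < n) (hx : 0 < x) (V : Finset Vx) (X : Set (Finset Ed)) :
    |prob n x E a b (fun ω => thru ω V ∈ X) - prob 1 1 E a b (fun ω => thru ω V ∈ X)| ≤
      11 * (|Real.log n| + |Real.log x|) * Real.sqrt (V.card + meanLen E a b V) := by
  classical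
  rcases (Conf E a b).eq_empty_or_nonempty with hemp | ⟨ω0, h0⟩
  · unfold prob
    rw [hemp, filter_empty, sum_empty, sum_empty, sub_self, abs_zero]
    exact mul_nonneg (mul_nonneg (by norm_num) (add_nonneg (abs_nonneg _) (abs_nonneg _)))
      (Real.sqrt_nonneg _)
  set Φ : (inn E → Bool) → ℝ := fun y => if thru (Cf ω0 y) V ∈ X then 1 else 0 with hΦ
  have hΦ1 : ∀ y, |Φ y| ≤ 1 := by
    intro y
    rw [hΦ]
    simp only
    split_ifs <;> simp
  have key := tv_seq (rt_weight hn hx ω0 a) (seq_rev (nx_rule (E := E) ω0 V))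
    (Fintype.card (inn E)) hΦ1 (fun y y' h => by
      rw [hΦ]
      simp only [thru_same h])
  have e1 : prob n x E a b (fun ω => thru ω V ∈ X) = (∑ y, Φ y * weight n x a (Cf ω0 y)) /
      ∑ y : inn E → Bool, weight n x a (Cf ω0 y) := prob_sum hE h0 ha hb n x _
  have e2 : prob 1 1 E a b (fun ω => thru ω V ∈ X) = av Φ := by
    rw [prob_sum hE h0 ha hb]
    simp only [weight_one, mul_one]
    unfold av
    congr 1
    rw [sum_const, card_univ, Fintype.card_fun, Fintype.card_bool, nsmul_eq_mul]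
    push_cast
    ring
  rw [e1, e2]
  have h2 : av (fun y : inn E → Bool =>
      ((rev (nx ω0 V) (Fintype.card (inn E)) y).card : ℝ)) ≤ 6 * (V.card + meanLen E a b V) := by
    have e3 : (V.card : ℝ) + meanLen E a b V =
        av (fun y : inn E → Bool => (V.card : ℝ) + ((thru (Cf ω0 y) V).card : ℝ)) := by
      rw [meanLen_eq hE h0 ha hb, av_add (fun _ => (V.card : ℝ)), av_const]
    rw [e3, ← av_mul]
    refine av_mono fun y => ?_
    have := JJ_card ω0 V y
    exact_mod_cast this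
  have hM : 0 ≤ V.card + meanLen E a b V :=
    add_nonneg (Nat.cast_nonneg _)
      (div_nonneg (sum_nonneg fun _ _ => Nat.cast_nonneg _) (Nat.cast_nonneg _))
  have h0' : 0 ≤ av (fun y : inn E → Bool =>
      ((rev (nx ω0 V) (Fintype.card (inn E)) y).card : ℝ)) := by
    have := av_mono (f := fun _ : inn E → Bool => (0:ℝ))
      (g := fun y => ((rev (nx ω0 V) (Fintype.card (inn E)) y).card : ℝ)) fun y => Nat.cast_nonneg _
    rwa [av_const] at this
  exact key.trans (final_num (add_nonneg (abs_nonneg _) (abs_nonneg _)) h0' hM h2)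

end Pool.Agent.X136.ON
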