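import Pool.Agent.X136.ON.Side
import Pool.Agent.X136.ON.Main
import Pool.Agent.X136.NW.Dom

set_option autoImplicit false

/-!
# The path of the O(n) loop model lies between two percolation exploration paths
-/

namespace Pool.Agent.X136.ON

open Finset H974 Pool.Agent.X136.NW

open Classical in
/-- site percolation: the hexagons of the domain have the colour of `ρ` independently with
probability `p`; the configuration is the set of the edges which separate the colours -/
noncomputable def perc (p : ℝ) (E ρ : Finset Ed) (A : Finset Ed → Prop) : ℝ :=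
  ∑ F ∈ (inn E).powerset.filter (fun F => A (cfg E ρ F)), p ^ F.card * (1 - p) ^ (inn E \ F).card

variable {E : Finset Ed}

theorem perc_eq (p : ℝ) (ρ : Finset Ed) (A : Finset Ed → Prop) :
    perc p E ρ A = Ex (fun _ => p) (inn E) (fun F => ind (A (cfg E ρ F))) := by
  classical
  unfold perc Ex
  rw [sum_filter]
  refine sum_congr rfl fun F _ => ?_
  rw [prod_const, prod_const]
  show _ = _ * ind (A (cfg E ρ F))
  by_cases h : A (cfg E ρ F)
  · rw [if_pos h, ind_of h, mul_one]
  · rw [if_neg h, ind_not_of h, mul_zero]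

theorem rto_weight {n x : ℝ} (hn : 0 < n) (hx : 0 < x) (ρ : Finset Ed) (a : Vx) :
    Rto (inn E) (fun F => weight n x a (cfg E ρ F))
      (Real.exp (6 * (|Real.log n| + |Real.log x|))) := by
  have hs : ∀ F : Finset Hx, F ⊆ inn E → ∀ h ∈ inn E, ∀ e, e ∉ bd h →
      (e ∈ cfg E ρ (insert h F) ↔ e ∈ cfg E ρ F) := by
    intro F hF h hh e he
    rw [mem_bd, not_or] at he
    have h1 : ∀ f : Hx, f ≠ h → mh (insert h F) f = mh F f := by
      intro f hf
      rw [Bool.eq_iff_iff, mh_iff, mh_iff, mem_insert]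
      exact ⟨fun h1 => h1.resolve_left hf, Or.inr⟩
    rw [← ch_iff, ← ch_iff, ch_cfg ρ hF, ch_cfg ρ (insert_subset hh hF), h1 _ he.1, h1 _ he.2]
  refine ⟨Real.one_le_exp (by positivity), fun F _ => ?_, fun F hF h hh _ => ?_,
    fun F hF h hh _ => ?_⟩
  · unfold weight; positivity
  · exact weight_flip hn hx (hs F hF h hh) a
  · exact weight_flip hn hx (fun e he => (hs F hF h hh e he).symm) a

theorem prob_eq (hE : Simply E) {a b : Vx} {ρ : Finset Ed} (h0 : ρ ∈ Conf E a b)
    (ha : Bdry E a) (hb : Bdry E b) (n x : ℝ) (A : Finset Ed → Prop) :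
    prob n x E a b A = Ew (fun F => weight n x a (cfg E ρ F)) (inn E)
      (fun F => ind (A (cfg E ρ F))) := by
  classical
  unfold prob Ew
  rw [sum_filter, sum_cfg hE h0 ha hb, sum_cfg hE h0 ha hb]
  congr 1
  refine sum_congr rfl fun F _ => ?_
  show _ = _ * ind (A (cfg E ρ F))
  by_cases h : A (cfg E ρ F)
  · rw [if_pos h, ind_of h, mul_one]
  · rw [if_neg h, ind_not_of h, mul_zero]

theorem Ew_one (S : Finset Hx) (f : Finset Hx → ℝ) :
    Ew (fun _ => 1) S f = Ex (fun _ => 1 / 2) S f := by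
  rw [Ex_half]
  unfold Ew
  simp only [one_mul, sum_const, card_powerset, nsmul_eq_mul, mul_one]
  push_cast
  rfl

theorem prob_one (hE : Simply E) {a b : Vx} {ρ : Finset Ed} (h0 : ρ ∈ Conf E a b)
    (ha : Bdry E a) (hb : Bdry E b) (A : Finset Ed → Prop) :
    prob 1 1 E a b A = Ex (fun _ => 1 / 2) (inn E) (fun F => ind (A (cfg E ρ F))) := by
  rw [prob_eq hE h0 ha hb, ← Ew_one]
  simp only [weight_one]

/-- the region between the arc and the path is monotone -/
theorem between_mono (hE : Simply E) {a b : Vx} {ρ : Finset Ed} (h0 : ρ ∈ Conf E a b)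
    (hρ : Arc E ρ) (ha : Bdry E a) (hb : Bdry E b) {F F' : Finset Hx} (hFF : F ⊆ F')
    (hF' : F' ⊆ inn E) :
    between E ρ (thru (cfg E ρ F) {a}) ⊆ between E ρ (thru (cfg E ρ F') {a}) := by
  obtain ⟨G, hG, hG2⟩ := cfg_surj hE h0 (pth_mem (cfg_mem h0 ha hb (hFF.trans hF')))
  obtain ⟨G', hG', hG2'⟩ := cfg_surj hE h0 (pth_mem (cfg_mem h0 ha hb hF'))
  have h := region_mono h0 hρ ha hb hFF hF' hG hG' hG2 hG2'
  have e1 : thru (cfg E ρ F) {a} = cfg E ρ G := hG2.symm
  have e2 : thru (cfg E ρ F') {a} = cfg E ρ G' := hG2'.symm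
  rw [e1, e2, between_cfg hG, between_cfg hG']
  exact_mod_cast h

theorem par_up (s : ℝ) : Real.exp s / (1 + Real.exp s) = (1 + Real.exp (-s))⁻¹ := by
  rw [Real.exp_neg]
  have := Real.exp_pos s
  field_simp
  ring

theorem par_lo (s : ℝ) : 1 / (1 + Real.exp s) = 1 - (1 + Real.exp (-s))⁻¹ := by
  rw [Real.exp_neg]
  have := Real.exp_pos s
  field_simp
  ring

/-- **The path of the O(n) loop model lies between two percolation exploration paths.** -/
theorem sandwich (hE : Simply E) {a b : Vx} {ρ : Finset Ed} (h0 : ρ ∈ Conf E a b)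
    (hρ : Arc E ρ) (ha : Bdry E a) (hb : Bdry E b) {n x p : ℝ} (hn : 0 < n) (hx : 0 < x)
    (hp : p = (1 + Real.exp (-(6 * (|Real.log n| + |Real.log x|))))⁻¹) :
    (∀ A : Set (Set Hx), (∀ R R', R ⊆ R' → R ∈ A → R' ∈ A) →
      perc (1 - p) E ρ (fun ω => between E ρ (thru ω {a}) ∈ A) ≤
        prob n x E a b (fun ω => between E ρ (thru ω {a}) ∈ A) ∧
      prob n x E a b (fun ω => between E ρ (thru ω {a}) ∈ A) ≤
        perc p E ρ (fun ω => between E ρ (thru ω {a}) ∈ A)) ∧
    ∀ (H : Finset Hx) (T : Set (Set Hx)),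
      |prob n x E a b (fun ω => between E ρ (thru ω {a}) ∩ ↑H ∈ T) -
        prob 1 1 E a b (fun ω => between E ρ (thru ω {a}) ∩ ↑H ∈ T)| ≤
      2 * ∑ h ∈ H, (perc p E ρ (fun ω => h ∈ between E ρ (thru ω {a})) -
        perc (1 - p) E ρ (fun ω => h ∈ between E ρ (thru ω {a}))) := by
  have hr := rto_weight (E := E) hn hx ρ a
  have e1 : p = Real.exp (6 * (|Real.log n| + |Real.log x|)) /
      (1 + Real.exp (6 * (|Real.log n| + |Real.log x|))) := by rw [hp, par_up]
  have e2 : 1 - p = 1 / (1 + Real.exp (6 * (|Real.log n| + |Real.log x|))) := by rw [hp, par_lo]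
  constructor
  · intro A hA
    have hm : Mon (inn E) (fun F => ind (between E ρ (thru (cfg E ρ F) {a}) ∈ A)) :=
      fun F F' h1 h2 => ind_mono (hA _ _ (between_mono hE h0 hρ ha hb h1 h2))
    rw [perc_eq, perc_eq, prob_eq hE h0 ha hb, e2, e1]
    exact ⟨hr.le_ew hm, hr.ew_le hm⟩
  · intro H T
    obtain ⟨hp1, hm1⟩ := mon_of_events H (inn E)
      (fun h F => h ∈ between E ρ (thru (cfg E ρ F) {a}))
      (fun h _ F F' h1 h2 h3 => between_mono hE h0 hρ ha hb h1 h2 h3)
      (fun F => ind (between E ρ (thru (cfg E ρ F) {a}) ∩ ↑H ∈ T))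
      (fun F G h => by
        have : between E ρ (thru (cfg E ρ F) {a}) ∩ ↑H = between E ρ (thru (cfg E ρ G) {a}) ∩ ↑H := by
          ext f
          constructor
          · rintro ⟨h1, h2⟩; exact ⟨(h f h2).1 h1, h2⟩
          · rintro ⟨h1, h2⟩; exact ⟨(h f h2).2 h1, h2⟩
        rw [this])
      (fun F => ⟨ind_nonneg _, ind_le_one _⟩)
    have h := hr.compare hp1 hm1
    rw [prob_eq hE h0 ha hb, prob_one hE h0 ha hb]
    refine h.trans (le_of_eq ?_)
    rw [← e1, ← e2]
    congr 1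
    have key : ∀ t : ℝ, Ex (fun _ => t) (inn E)
        (fun F => ∑ h ∈ H, ind (h ∈ between E ρ (thru (cfg E ρ F) {a}))) =
        ∑ h ∈ H, perc t E ρ (fun ω => h ∈ between E ρ (thru ω {a})) := by
      intro t
      rw [Ex_sum]
      exact sum_congr rfl fun h _ =>
        (perc_eq t ρ (fun ω => h ∈ between E ρ (thru ω {a}))).symm
    rw [key, key, sum_sub_distrib]

end Pool.Agent.X136.ON
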