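import Pool.Agent.X136.ON.Expl

set_option autoImplicit false

/-!
# The region on one side of the path is monotone in the colours of the hexagons
-/

namespace Pool.Agent.X136.ON

open Finset

/-- the configuration of the edges which separate the colours, if the hexagons of `F`, and the outer
hexagons next to the boundary arc `ρ`, have the first colour, and the other ones the second colour -/
def cfg (E ρ : Finset Ed) (F : Finset Hx) : Finset Ed :=
  symmDiff ρ (E.filter fun e => ¬ (s1 e ∈ F ↔ s2 e ∈ F))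

/-- the hexagons of the domain between the boundary arc `ρ` and the path `γ` -/
def between (E ρ γ : Finset Ed) : Set Hx := {h | ∃ F ⊆ inn E, cfg E ρ F = γ ∧ h ∈ F}

/-- membership as a bit -/
def mh (F : Finset Hx) (h : Hx) : Bool := decide (h ∈ F)

theorem mh_iff {F : Finset Hx} {h : Hx} : mh F h = true ↔ h ∈ F := decide_eq_true_iff

theorem mh_false {F : Finset Hx} {h : Hx} : mh F h = false ↔ h ∉ F := decide_eq_false_iff_not

variable {E : Finset Ed}

/-- the bits of a set -/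
def bt (F : Finset Hx) : inn E → Bool := fun i => mh F i.1

theorem xt_bt {F : Finset Hx} (hF : F ⊆ inn E) (h : Hx) : xt (bt (E := E) F) h = mh F h := by
  unfold xt bt
  split_ifs with h1
  · rfl
  · exact (mh_false.2 fun h2 => h1 (hF h2)).symm

theorem cfg_bt (ρ : Finset Ed) {F : Finset Hx} (hF : F ⊆ inn E) :
    cfg E ρ F = Cf ρ (bt (E := E) F) := by
  unfold cfg Cf Db
  congr 1
  apply filter_congr
  intro e _
  rw [xt_bt hF, xt_bt hF]
  by_cases h1 : s1 e ∈ F <;> by_cases h2 : s2 e ∈ F <;> simp [mh, h1, h2]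

theorem ch_cfg (ρ : Finset Ed) {F : Finset Hx} (hF : F ⊆ inn E) (e : Ed) :
    ch (cfg E ρ F) e = xor (ch ρ e) (xor (mh F (s1 e)) (mh F (s2 e))) := by
  rw [cfg_bt ρ hF, ch_Cf, xt_bt hF, xt_bt hF]

theorem cfg_mem {a b : Vx} {ρ : Finset Ed} (h0 : ρ ∈ Conf E a b)
    (ha : Bdry E a) (hb : Bdry E b) {F : Finset Hx} (hF : F ⊆ inn E) : cfg E ρ F ∈ Conf E a b := by
  rw [cfg_bt ρ hF]
  exact Cf_mem h0 ha hb _

theorem cfg_surj (hE : Simply E) {a b : Vx} {ρ ω : Finset Ed}
    (h0 : ρ ∈ Conf E a b) (h : ω ∈ Conf E a b) : ∃ F ⊆ inn E, cfg E ρ F = ω := by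
  obtain ⟨x, hx⟩ := Cf_surj hE h0 h
  refine ⟨(inn E).filter fun h => xt x h = true, filter_subset _ _, ?_⟩
  rw [cfg_bt ρ (filter_subset _ _), ← hx]
  congr 1
  funext i
  unfold bt
  cases h1 : x i
  · rw [mh_false, mem_filter, not_and]
    intro _
    unfold xt
    rw [dif_pos i.2, h1]
    decide
  · rw [mh_iff, mem_filter]
    refine ⟨i.2, ?_⟩
    unfold xt
    rw [dif_pos i.2, h1]

theorem cfg_inj {ρ : Finset Ed} {F G : Finset Hx} (hF : F ⊆ inn E) (hG : G ⊆ inn E)
    (h : cfg E ρ F = cfg E ρ G) : F = G := by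
  rw [cfg_bt ρ hF, cfg_bt ρ hG] at h
  have h1 := Cf_inj h
  ext f
  constructor
  · intro hf
    have := congrFun h1 ⟨f, hF hf⟩
    unfold bt at this
    rw [mh_iff.2 hf] at this
    exact mh_iff.1 this.symm
  · intro hf
    have := congrFun h1 ⟨f, hG hf⟩
    unfold bt at this
    rw [mh_iff.2 hf] at this
    exact mh_iff.1 this

theorem between_cfg {ρ : Finset Ed} {G : Finset Hx} (hG : G ⊆ inn E) :
    between E ρ (cfg E ρ G) = ↑G := by
  ext h
  constructor
  · rintro ⟨F, hF, h1, h2⟩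
    rw [cfg_inj hF hG h1] at h2
    exact h2
  · intro h1
    exact ⟨G, hG, rfl, h1⟩

/-- all the configurations -/
theorem sum_cfg (hE : Simply E) {a b : Vx} {ρ : Finset Ed} (h0 : ρ ∈ Conf E a b)
    (ha : Bdry E a) (hb : Bdry E b) (f : Finset Ed → ℝ) :
    ∑ ω ∈ Conf E a b, f ω = ∑ F ∈ (inn E).powerset, f (cfg E ρ F) := by
  symm
  refine sum_bij (fun F _ => cfg E ρ F) (fun F hF => cfg_mem h0 ha hb (mem_powerset.1 hF))
    (fun F hF G hG h => cfg_inj (mem_powerset.1 hF) (mem_powerset.1 hG) h) ?_ (fun F _ => rfl)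
  intro ω hω
  obtain ⟨F, hF, h1⟩ := cfg_surj hE h0 hω
  exact ⟨F, mem_powerset.2 hF, h1⟩

/-! ### the path is a configuration -/

/-- the path -/
noncomputable abbrev pth (ω : Finset Ed) (a : Vx) : Finset Ed := thru ω {a}

theorem mem_pth {ω : Finset Ed} {a : Vx} {e : Ed} : e ∈ pth ω a ↔ e ∈ ω ∧ Joined ↑ω a (up e) := by
  rw [mem_thru]
  unfold JV
  simp only [mem_singleton, exists_eq_left]

theorem joined_up {ω : Finset Ed} {a v : Vx} {e : Ed} (he : e ∈ ω) (hi : Inc v e)
    (hj : Joined ↑ω a v) : Joined ↑ω a (up e) := by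
  rcases hi with rfl | rfl
  · exact hj
  · exact hj.trans (joined_edge (mem_coe.2 he)).symm

theorem mem_pth_of {ω : Finset Ed} {a v : Vx} {e : Ed} (he : e ∈ ω) (hi : Inc v e)
    (hj : Joined ↑ω a v) : e ∈ pth ω a := mem_pth.2 ⟨he, joined_up he hi hj⟩

theorem joined_of_pth {ω : Finset Ed} {a v : Vx} {e : Ed} (he : e ∈ pth ω a) (hi : Inc v e) :
    Joined ↑ω a v := by
  obtain ⟨h1, h2⟩ := mem_pth.1 he
  rcases hi with rfl | rfl
  · exact h2
  · exact h2.trans (joined_edge (mem_coe.2 h1))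

theorem deg_pth_in {ω : Finset Ed} {a v : Vx} (hj : Joined ↑ω a v) : deg (pth ω a) v = deg ω v := by
  unfold deg
  congr 1
  ext e
  rw [mem_filter, mem_filter]
  constructor
  · rintro ⟨h1, h2⟩
    exact ⟨(mem_pth.1 h1).1, h2⟩
  · rintro ⟨h1, h2⟩
    exact ⟨mem_pth_of h1 h2 hj, h2⟩

theorem deg_pth_out {ω : Finset Ed} {a v : Vx} (hj : ¬ Joined ↑ω a v) : deg (pth ω a) v = 0 := by
  unfold deg
  rw [card_eq_zero, filter_eq_empty_iff]
  intro e he hi
  exact hj (joined_of_pth he hi)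

theorem up_ne_dn (e : Ed) : up e ≠ dn e := by
  obtain ⟨i, j, k⟩ := e
  cases k <;> simp [up, dn]

/-- the sum of the degrees is even -/
theorem sum_deg (γ : Finset Ed) (W : Finset Vx) (hW : ∀ e ∈ γ, up e ∈ W ∧ dn e ∈ W) :
    ∑ v ∈ W, deg γ v = 2 * γ.card := by
  have h1 : ∀ v, deg γ v = ∑ e ∈ γ, if Inc v e then 1 else 0 := by
    intro v
    unfold deg
    rw [card_filter]
  simp only [h1]
  rw [sum_comm, mul_comm, ← smul_eq_mul, ← sum_const]
  refine sum_congr rfl fun e he => ?_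
  rw [← card_filter]
  have h2 : (W.filter fun v => Inc v e) = {up e, dn e} := by
    ext v
    rw [mem_filter, mem_insert, mem_singleton]
    constructor
    · rintro ⟨-, h | h⟩
      · exact Or.inl h.symm
      · exact Or.inr h.symm
    · rintro (rfl | rfl)
      · exact ⟨(hW e he).1, Or.inl rfl⟩
      · exact ⟨(hW e he).2, Or.inr rfl⟩
  rw [h2, card_pair (up_ne_dn e)]

theorem joined_ends {a b : Vx} {ω : Finset Ed} (h : ω ∈ Conf E a b) : Joined ↑ω a b := by
  classical
  obtain ⟨h1, h2, h3, h4⟩ := mem_Conf.1 h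
  by_contra hcon
  set W : Finset Vx := insert a ((pth ω a).image up ∪ (pth ω a).image dn) with hW
  have h5 := sum_deg (pth ω a) W (fun e he => by
    rw [hW, mem_insert, mem_insert, mem_union, mem_union, mem_image, mem_image]
    exact ⟨Or.inr (Or.inl ⟨e, he, rfl⟩), Or.inr (Or.inr (mem_image_of_mem _ he))⟩)
  have ha : a ∈ W := mem_insert_self _ _
  rw [← add_sum_erase _ _ ha, deg_pth_in (Relation.ReflTransGen.refl), h2] at h5
  have h6 : Even (∑ v ∈ W.erase a, deg (pth ω a) v) := by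
    refine even_sum _ fun v hv => ?_
    rw [mem_erase] at hv
    by_cases hj : Joined ↑ω a v
    · rw [deg_pth_in hj]
      have hvb : v ≠ b := fun hh => hcon (hh ▸ hj)
      rcases h4 v hv.1 hvb with h7 | h7 <;> rw [h7] <;> decide
    · rw [deg_pth_out hj]; decide
  obtain ⟨k, hk⟩ := h6
  omega

theorem pth_mem {a b : Vx} {ω : Finset Ed} (h : ω ∈ Conf E a b) : pth ω a ∈ Conf E a b := by
  obtain ⟨h1, h2, h3, h4⟩ := mem_Conf.1 h
  rw [mem_Conf]
  refine ⟨fun e he => h1 (mem_pth.1 he).1, ?_, ?_, ?_⟩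
  · rw [deg_pth_in Relation.ReflTransGen.refl, h2]
  · rw [deg_pth_in (joined_ends h), h3]
  · intro v hva hvb
    by_cases hj : Joined ↑ω a v
    · rw [deg_pth_in hj]; exact h4 v hva hvb
    · exact Or.inl (deg_pth_out hj)

/-- an even part of the path is empty -/
theorem even_part {a b : Vx} {ω η : Finset Ed} (h : ω ∈ Conf E a b) (hη : η ⊆ pth ω a)
    (hp : ∀ v, par η v = false) : η = ∅ := by
  obtain ⟨h1, h2, h3, h4⟩ := mem_Conf.1 h
  by_contra hne
  obtain ⟨e, he⟩ := nonempty_iff_ne_empty.2 hne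
  have hsub : ∀ v, (η.filter fun e => Inc v e) ⊆ ω.filter fun e => Inc v e := fun v =>
    filter_subset_filter _ fun e he => (mem_pth.1 (hη he)).1
  have hle : ∀ v, deg η v ≤ deg ω v := fun v => card_le_card (hsub v)
  have hpos : ∀ v e, e ∈ η → Inc v e → deg η v = 2 ∧ deg ω v = 2 ∧ v ≠ a := by
    intro v e he hi
    have h5 : 1 ≤ deg η v := card_pos.2 ⟨e, mem_filter.2 ⟨he, hi⟩⟩
    have h6 : deg η v = 2 := by
      rcases par_even.1 (hp v) with h7 | h7 <;> omega
    have h7 := hle v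
    have hva : v ≠ a := by rintro rfl; omega
    have hvb : v ≠ b := by rintro rfl; omega
    refine ⟨h6, ?_, hva⟩
    rcases h4 v hva hvb with h8 | h8 <;> omega
  have hstep : ∀ v e, e ∈ η → Inc v e → ∀ e' ∈ ω, Inc v e' → e' ∈ η := by
    intro v e he hi e' he' hi'
    obtain ⟨h5, h6, -⟩ := hpos v e he hi
    have h7 : (η.filter fun e => Inc v e) = ω.filter fun e => Inc v e :=
      eq_of_subset_of_card_le (hsub v) (by
        have e1 : (ω.filter fun e => Inc v e).card = deg ω v := rfl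
        have e2 : (η.filter fun e => Inc v e).card = deg η v := rfl
        omega)
    have h8 : e' ∈ ω.filter fun e => Inc v e := mem_filter.2 ⟨he', hi'⟩
    rw [← h7] at h8
    exact (mem_filter.1 h8).1
  have hall : ∀ v, Joined ↑ω (up e) v → ∃ e' ∈ η, Inc v e' := by
    intro v hj
    induction hj with
    | refl => exact ⟨e, he, Or.inl rfl⟩
    | @tail u w _ hs ih =>
      obtain ⟨e1, he1, hi1⟩ := ih
      obtain ⟨e2, he2, hh⟩ := hs
      have h5 : e2 ∈ η := hstep u e1 he1 hi1 e2 he2 (by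
        rcases hh with ⟨h, -⟩ | ⟨-, h⟩
        · exact Or.inl h
        · exact Or.inr h)
      refine ⟨e2, h5, ?_⟩
      rcases hh with ⟨-, h⟩ | ⟨h, -⟩
      · exact Or.inr h
      · exact Or.inl h
  obtain ⟨e', he', hi'⟩ := hall a (mem_pth.1 (hη he)).2.symm
  exact (hpos a e' he' hi').2.2 rfl

/-! ### the colours next to the path -/

theorem const_at {F G : Finset Hx} {v : Vx}
    (h : ∀ e, Inc v e → xor (mh F (s1 e)) (mh F (s2 e)) = xor (mh G (s1 e)) (mh G (s2 e)))
    {f g : Hx} (hf : f ∈ hv v) (hg : g ∈ hv v) (h0 : mh F f = mh G f) : mh F g = mh G g := by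
  have h1 := h (ea v) (inc_iff.2 (Or.inl rfl))
  have h2 := h (eb v) (inc_iff.2 (Or.inr (Or.inl rfl)))
  have h3 := h (ec v) (inc_iff.2 (Or.inr (Or.inr rfl)))
  obtain ⟨i, j, s⟩ := v
  cases s
  · simp only [ea, eb, ec, s1, s2] at h1 h2 h3
    simp only [hv, mem_insert, mem_singleton] at hf hg
    revert h0 h1 h2 h3
    rcases hf with rfl | rfl | rfl <;> rcases hg with rfl | rfl | rfl <;>
    cases mh F (i, j) <;> cases mh G (i, j) <;> cases mh F (i + 1, j) <;>
      cases mh G (i + 1, j) <;> cases mh F (i, j + 1) <;> cases mh G (i, j + 1) <;> simp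
  · simp only [ea, eb, ec, s1, s2] at h1 h2 h3
    simp only [hv, mem_insert, mem_singleton] at hf hg
    revert h0 h1 h2 h3
    rcases hf with rfl | rfl | rfl <;> rcases hg with rfl | rfl | rfl <;>
    cases mh F (i + 1, j) <;> cases mh G (i + 1, j) <;> cases mh F (i, j + 1) <;>
      cases mh G (i, j + 1) <;> cases mh F (i + 1, j + 1) <;> cases mh G (i + 1, j + 1) <;> simp

theorem near_path {a : Vx} {ρ : Finset Ed} (ha : Bdry E a) {F G : Finset Hx}
    (hF : F ⊆ inn E) (hG : G ⊆ inn E) (hG2 : cfg E ρ G = pth (cfg E ρ F) a) {v : Vx}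
    (hj : Joined ↑(cfg E ρ F) a v) : ∀ h ∈ hv v, mh F h = mh G h := by
  have hx : ∀ v, Joined ↑(cfg E ρ F) a v → ∀ e, Inc v e →
      xor (mh F (s1 e)) (mh F (s2 e)) = xor (mh G (s1 e)) (mh G (s2 e)) := by
    intro v hj e hi
    have h1 : ch (cfg E ρ G) e = ch (cfg E ρ F) e := by
      rw [hG2, Bool.eq_iff_iff, ch_iff, ch_iff]
      exact ⟨fun h => (mem_pth.1 h).1, fun h => mem_pth_of h hi hj⟩
    rw [ch_cfg ρ hF, ch_cfg ρ hG] at h1
    revert h1
    cases ch ρ e <;> cases mh F (s1 e) <;> cases mh F (s2 e) <;> cases mh G (s1 e) <;>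
      cases mh G (s2 e) <;> simp
  induction hj with
  | refl =>
    intro h hh
    obtain ⟨e, he, hi⟩ := ha
    have h1 : s1 e ∉ inn E := fun hc => he (mem_inn.1 hc (mem_bd.2 (Or.inl rfl)))
    refine const_at (hx a Relation.ReflTransGen.refl) (hv_of_inc hi).1 hh ?_
    rw [mh_false.2 fun hc => h1 (hF hc), mh_false.2 fun hc => h1 (hG hc)]
  | @tail u w hu hs ih =>
    intro h hh
    obtain ⟨e, he, hh2⟩ := hs
    have hiu : Inc u e := by
      rcases hh2 with ⟨h, -⟩ | ⟨-, h⟩
      · exact Or.inl h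
      · exact Or.inr h
    have hiw : Inc w e := by
      rcases hh2 with ⟨-, h⟩ | ⟨h, -⟩
      · exact Or.inr h
      · exact Or.inl h
    exact const_at (hx w (hu.tail ⟨e, he, hh2⟩)) (hv_of_inc hiw).1 hh (ih _ (hv_of_inc hiu).1)

/-- the boundary arc: all the edges are at the boundary of the domain -/
def Arc (E ρ : Finset Ed) : Prop := ∀ e ∈ ρ, ¬ bd (s1 e) ⊆ E ∨ ¬ bd (s2 e) ⊆ E

/-- **Monotonicity of the region between the arc and the path.** -/
theorem region_mono {a b : Vx} {ρ : Finset Ed} (h0 : ρ ∈ Conf E a b) (hρ : Arc E ρ)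
    (ha : Bdry E a) (hb : Bdry E b) {F F' G G' : Finset Hx} (hFF : F ⊆ F') (hF' : F' ⊆ inn E)
    (hG : G ⊆ inn E) (hG' : G' ⊆ inn E) (hG2 : cfg E ρ G = pth (cfg E ρ F) a)
    (hG2' : cfg E ρ G' = pth (cfg E ρ F') a) : G ⊆ G' := by
  classical
  have hF := hFF.trans hF'
  have hω := cfg_mem h0 ha hb hF
  have hω' := cfg_mem h0 ha hb hF'
  have hZ : G \ G' ⊆ inn E := sdiff_subset.trans hG
  set Z := G \ G' with hZdef
  have hmZ : ∀ h, mh Z h = (mh G h && !(mh G' h)) := by
    intro h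
    by_cases h1 : h ∈ G <;> by_cases h2 : h ∈ G' <;> simp [mh, hZdef, h1, h2]
  -- the boundary of `Z`
  set D := Db (bt (E := E) Z) with hD
  have hchD : ∀ e, ch D e = xor (mh Z (s1 e)) (mh Z (s2 e)) := by
    intro e
    rw [hD, ch_Db, xt_bt hZ, xt_bt hZ]
  have hpD : ∀ v, par D v = false := fun v => par_Db _ v
  have hγ : ∀ e, ch (pth (cfg E ρ F) a) e = xor (ch ρ e) (xor (mh G (s1 e)) (mh G (s2 e))) := by
    intro e; rw [← hG2, ch_cfg ρ hG]
  have hγ' : ∀ e, ch (pth (cfg E ρ F') a) e =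
      xor (ch ρ e) (xor (mh G' (s1 e)) (mh G' (s2 e))) := by
    intro e; rw [← hG2', ch_cfg ρ hG']
  have hout : ∀ e, ch ρ e = true → (mh G (s1 e) = false ∧ mh G' (s1 e) = false) ∨
      (mh G (s2 e) = false ∧ mh G' (s2 e) = false) := by
    intro e he
    rcases hρ e (ch_iff.1 he) with h | h
    · left
      exact ⟨mh_false.2 fun hc => h (mem_inn.1 (hG hc)), mh_false.2 fun hc => h (mem_inn.1 (hG' hc))⟩
    · right
      exact ⟨mh_false.2 fun hc => h (mem_inn.1 (hG hc)), mh_false.2 fun hc => h (mem_inn.1 (hG' hc))⟩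
  have hcov : ∀ e ∈ D, e ∈ pth (cfg E ρ F) a ∨ e ∈ pth (cfg E ρ F') a := by
    intro e he
    by_contra hcon
    rw [not_or, ← ch_false, ← ch_false, hγ, hγ'] at hcon
    have h1 := hchD e
    rw [ch_iff.2 he, hmZ, hmZ] at h1
    obtain ⟨h2, h3⟩ := hcon
    cases hρe : ch ρ e
    · rw [hρe] at h2 h3
      revert h1 h2 h3
      cases mh G (s1 e) <;> cases mh G (s2 e) <;> cases mh G' (s1 e) <;> cases mh G' (s2 e) <;> simp
    · rw [hρe] at h2 h3
      have h4 := hout e hρe
      revert h1 h2 h3 h4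
      cases mh G (s1 e) <;> cases mh G (s2 e) <;> cases mh G' (s1 e) <;> cases mh G' (s2 e) <;> simp
  -- no edges of `D` at the common vertices
  have hcommon : ∀ v, Joined ↑(cfg E ρ F) a v → Joined ↑(cfg E ρ F') a v → ∀ e ∈ D, ¬ Inc v e := by
    intro v hj hj' e he hi
    have h1 := near_path ha hF hG hG2 hj
    have h2 := near_path ha hF' hG' hG2' hj'
    have h3 : ∀ h ∈ hv v, mh Z h = false := by
      intro h hh
      rw [mh_false, hZdef, mem_sdiff, not_and, not_not]
      intro h4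
      rw [← mh_iff, ← h1 h hh, mh_iff] at h4
      rw [← mh_iff, ← h2 h hh, mh_iff]
      exact hFF h4
    have h4 := hchD e
    rw [ch_iff.2 he, h3 _ (hv_of_inc hi).1, h3 _ (hv_of_inc hi).2] at h4
    exact absurd h4 (by decide)
  have hpar : ∀ (P : Ed → Prop) [DecidablePred P] (v : Vx),
      (∀ e ∈ D, Inc v e → P e) ∨ (∀ e ∈ D, Inc v e → ¬ P e) → par (D.filter P) v = false := by
    intro P _ v h
    rcases h with h | h
    · have e1 : ∀ e, Inc v e → ch (D.filter P) e = ch D e := by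
        intro e hi
        rw [Bool.eq_iff_iff, ch_iff, ch_iff, mem_filter]
        exact ⟨fun h => h.1, fun h1 => ⟨h1, h e h1 hi⟩⟩
      have := hpD v
      unfold par at this ⊢
      rw [e1 _ (inc_iff.2 (Or.inl rfl)), e1 _ (inc_iff.2 (Or.inr (Or.inl rfl))),
        e1 _ (inc_iff.2 (Or.inr (Or.inr rfl)))]
      exact this
    · have e1 : ∀ e, Inc v e → ch (D.filter P) e = false := by
        intro e hi
        rw [ch_false, mem_filter, not_and]
        exact fun h1 => h e h1 hi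
      unfold par
      rw [e1 _ (inc_iff.2 (Or.inl rfl)), e1 _ (inc_iff.2 (Or.inr (Or.inl rfl))),
        e1 _ (inc_iff.2 (Or.inr (Or.inr rfl)))]
      rfl
  have hA : D.filter (fun e => e ∈ pth (cfg E ρ F) a) = ∅ := by
    refine even_part hω (fun e he => (mem_filter.1 he).2) fun v => hpar _ v ?_
    by_cases hj : Joined ↑(cfg E ρ F) a v
    · by_cases hj' : Joined ↑(cfg E ρ F') a v
      · exact Or.inl fun e he hi => absurd hi (hcommon v hj hj' e he)
      · left
        intro e he hi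
        rcases hcov e he with h | h
        · exact h
        · exact absurd (joined_of_pth h hi) hj'
    · exact Or.inr fun e he hi h => hj (joined_of_pth h hi)
  have hB : D.filter (fun e => e ∈ pth (cfg E ρ F') a) = ∅ := by
    refine even_part hω' (fun e he => (mem_filter.1 he).2) fun v => hpar _ v ?_
    by_cases hj' : Joined ↑(cfg E ρ F') a v
    · by_cases hj : Joined ↑(cfg E ρ F) a v
      · exact Or.inl fun e he hi => absurd hi (hcommon v hj hj' e he)
      · left
        intro e he hi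
        rcases hcov e he with h | h
        · exact absurd (joined_of_pth h hi) hj
        · exact h
    · exact Or.inr fun e he hi h => hj' (joined_of_pth h hi)
  have hD0 : D = ∅ := by
    rw [eq_empty_iff_forall_notMem]
    intro e he
    rcases hcov e he with h | h
    · have : e ∈ D.filter (fun e => e ∈ pth (cfg E ρ F) a) := mem_filter.2 ⟨he, h⟩
      rw [hA] at this
      exact notMem_empty _ this
    · have : e ∈ D.filter (fun e => e ∈ pth (cfg E ρ F') a) := mem_filter.2 ⟨he, h⟩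
      rw [hB] at this
      exact notMem_empty _ this
  have hZ0 : Z = ∅ := by
    refine cfg_inj (ρ := ρ) hZ (empty_subset _) ?_
    rw [cfg_bt ρ hZ, cfg_bt ρ (empty_subset _)]
    unfold Cf
    congr 1
    rw [← hD, hD0]
    apply ch_ext
    intro e
    rw [ch_Db, xt_bt (empty_subset _), xt_bt (empty_subset _)]
    rfl
  exact sdiff_eq_empty_iff_subset.1 hZ0

end Pool.Agent.X136.ON
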